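import Pool.Agent.H16.FK.TargetsA

/-!
# The group argument for symmetric far rows
-/

set_option autoImplicit false

namespace Pool.Agent.H91.FKI

open Set Pool.Agent.H75.HCI Pool.Agent.H16.FK

section

variable {kx k : ℕ} {L : Type}

/-- A map which preserves the type of `l` preserves the types of all lists of members of `l`. -/
theorem ft_map {P : Type} [DecidableEq P] {T : List (Idx kx k) → L} (hF : FTx T) (l l' : List P)
    (f g : P → Idx kx k) (h : T (l.map f) = T (l.map g)) (hl : ∀ x ∈ l', x ∈ l) :
    T (l'.map f) = T (l'.map g) := by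
  have hs : sel l (l'.map fun x => l.idxOf x) = l' := by
    unfold sel
    rw [List.filterMap_map]
    have : ∀ x ∈ l', (fun i => l[i]?) ((fun x => l.idxOf x) x) = some x := by
      intro x hx
      show l[l.idxOf x]? = some x
      rw [List.getElem?_eq_getElem (List.idxOf_lt_length_iff.mpr (hl x hx)), List.getElem_idxOf]
    rw [List.filterMap_congr (g := some) (by intro x hx; exact this x hx), List.filterMap_some]
  have h1 := hF (l.map f) (l.map g) (l'.map fun x => l.idxOf x) (by simp) h
  rw [sel_map, sel_map, hs] at h1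
  exact h1

/-- Moving points of one chunk to another chunk. -/
theorem mv_chunk {T : List (Idx kx k) → L} (hT : PatInv T) (i j m : ℕ) (a : List (Fin k)) :
    T (prt i m a) = T (prt j m a) := by
  have h1 := hT (fun p => (i, p.2)) {p : Idx kx k | p.1 = j}
    ⟨fun _ _ => rfl, fun p hp q hq => by
      have e1 : p.1 = j := hp
      have e2 : q.1 = j := hq
      rw [e1, e2]
      exact ⟨fun h => absurd h (lt_irrefl _), fun h => absurd h (lt_irrefl _)⟩,
      fun p _ q _ _ u u' v v' hu hv hu' hv' => by
        have e1 : (Sum.inr u : Fin kx ⊕ ℕ × Fin k) = Sum.inr u' := hu.symm.trans hu'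
        have e2 : (Sum.inr v : Fin kx ⊕ ℕ × Fin k) = Sum.inr v' := hv.symm.trans hv'
        rw [Sum.inr.inj e1, Sum.inr.inj e2]⟩
    (prt j m a) (by
      intro x hx
      unfold prt at hx
      obtain ⟨y, _, rfl⟩ := List.mem_map.mp hx
      rfl)
  rw [← h1]
  unfold prt
  rw [List.map_map]
  rfl

/-- Moving points of one row to another row. -/
theorem mv_row {T : List (Idx kx k) → L} (hT : PatInv T) (i m m' : ℕ) (a : List (Fin k)) :
    T (prt i m a) = T (prt i m' a) := by
  have h1 := hT (fun p => (p.1, p.2.elim Sum.inl fun q => .inr (m, q.2)))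
    {p : Idx kx k | ∃ y, p = (i, .inr (m', y))}
    ⟨fun p hp => by
      obtain ⟨y, rfl⟩ := hp
      rfl, fun p _ q _ => Iff.rfl,
      fun p hp q hq _ u u' v v' hu hv hu' hv' => by
        obtain ⟨y, rfl⟩ := hp
        obtain ⟨z, rfl⟩ := hq
        have e1 : ((m, y) : ℕ × Fin k) = u' := Sum.inr.inj hu'
        have e2 : ((m, z) : ℕ × Fin k) = v' := Sum.inr.inj hv'
        have e3 : ((m', y) : ℕ × Fin k) = u := Sum.inr.inj hu
        have e4 : ((m', z) : ℕ × Fin k) = v := Sum.inr.inj hv
        rw [← e1, ← e2, ← e3, ← e4]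
        exact ⟨fun h => absurd h (lt_irrefl _), fun h => absurd h (lt_irrefl _)⟩⟩
    (prt i m' a) (by
      intro x hx
      unfold prt at hx
      obtain ⟨y, _, rfl⟩ := List.mem_map.mp hx
      exact ⟨y, rfl⟩)
  rw [← h1]
  unfold prt
  rw [List.map_map]
  rfl

/-- The permutations which are invisible for `T`. -/
def GG (T : List (Idx kx k) → L) {P : Type} (pt : P → Idx kx k) (h : Equiv.Perm P) : Prop :=
  ∀ z : List P, T (z.map fun p => pt (h p)) = T (z.map pt)

theorem GG.mul {T : List (Idx kx k) → L} {P : Type} {pt : P → Idx kx k} {h h' : Equiv.Perm P}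
    (h1 : GG T pt h) (h2 : GG T pt h') : GG T pt (h * h') := by
  intro z
  have h3 := h1 (z.map h')
  rw [List.map_map, List.map_map] at h3
  have h4 := h2 z
  show T (z.map ((fun p => pt (h p)) ∘ h')) = T (z.map pt)
  rw [h3]
  exact h4

theorem GG.inv {T : List (Idx kx k) → L} {P : Type} {pt : P → Idx kx k} {h : Equiv.Perm P}
    (h1 : GG T pt h) : GG T pt h⁻¹ := by
  intro z
  have h3 := h1 (z.map (h⁻¹ : Equiv.Perm P))
  rw [List.map_map, List.map_map] at h3
  have h4 : ((fun p => pt (h p)) ∘ (h⁻¹ : Equiv.Perm P)) = pt := by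
    funext p
    show pt (h (h⁻¹ p)) = pt p
    exact congrArg pt (h.apply_symm_apply p)
  rw [h4] at h3
  exact h3.symm

theorem GG.of_all {T : List (Idx kx k) → L} (hF : FTx T) {P : Type} [DecidableEq P]
    {pt : P → Idx kx k} {h : Equiv.Perm P} (l : List P) (hl : ∀ x, x ∈ l)
    (h1 : T (l.map fun p => pt (h p)) = T (l.map pt)) : GG T pt h :=
  fun z => ft_map hF l z _ _ h1 (fun x _ => hl x)

/-- the points of the first rows of the chunks below `q` -/
def ptq (q : ℕ) (p : Fin q × Fin k) : Idx kx k := (p.1.val, .inr (0, p.2))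

/-- the points of one row -/
def pt1 (y : Fin k) : Idx kx k := (0, .inr (0, y))

/-- all points -/
def pts (k q : ℕ) : List (Fin q × Fin k) :=
  ((List.finRange q).map fun j => (List.finRange k).map fun y => (j, y)).flatten

theorem mem_pts (q : ℕ) (p : Fin q × Fin k) : p ∈ pts k q := by
  unfold pts
  rw [List.mem_flatten]
  exact ⟨_, List.mem_map.mpr ⟨p.1, List.mem_finRange _, rfl⟩,
    List.mem_map.mpr ⟨p.2, List.mem_finRange _, rfl⟩⟩

/-- A list of all members of a finite type in some order comes from a permutation. -/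
theorem exists_perm {n : ℕ} (a : List (Fin n)) (h1 : a.Nodup) (h2 : a.length = n) :
    ∃ t : Equiv.Perm (Fin n), a = (List.finRange n).map t := by
  have hinj : Function.Injective fun y : Fin n => a[y.val]'(by rw [h2]; exact y.2) := by
    intro x y hxy
    exact Fin.ext ((List.Nodup.getElem_inj_iff h1).mp hxy)
  refine ⟨Equiv.ofBijective _ (Finite.injective_iff_bijective.mp hinj), ?_⟩
  refine List.ext_getElem (by simp [h2]) (fun i h3 h4 => ?_)
  simp

theorem map_flat {P Q : Type} (q : ℕ) (F : Fin q → List P) (f : P → Q) :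
    (((List.finRange q).map F).flatten).map f =
      ((List.finRange q).map fun j => (F j).map f).flatten := by
  rw [List.map_flatten, List.map_map]
  rfl

/-- The images of all points under a map which respects the rows. -/
theorem map_pts (q : ℕ) (σ : Equiv.Perm (Fin q)) (τ : Fin q → Equiv.Perm (Fin k)) :
    (pts k q).map (fun p => (ptq q (Equiv.prodShear σ τ p) : Idx kx k)) =
      ((List.finRange q).map fun j => prt (σ j).val 0 ((List.finRange k).map (τ j))).flatten := by
  unfold pts
  rw [map_flat]
  congr 1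
  refine List.map_congr_left (fun j _ => ?_)
  unfold prt
  rw [List.map_map, List.map_map]
  rfl

/-- The invisible twists. -/
theorem gg1_of_T {T : List (Idx kx k) → L} (hF : FTx T) (t : Equiv.Perm (Fin k))
    (h : T (prt 0 0 ((List.finRange k).map t)) = T (row 0 0)) : GG T (pt1 (kx := kx)) t := by
  refine GG.of_all hF (List.finRange k) (fun x => List.mem_finRange x) ?_
  have e1 : (List.finRange k).map (fun p => pt1 (kx := kx) (t p)) =
      prt 0 0 ((List.finRange k).map t) := by
    unfold prt
    rw [List.map_map]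
    rfl
  rw [e1, h]
  rfl

/-- The twists of an invisible permutation are invisible. -/
theorem gg1_of_ggq {T : List (Idx kx k) → L} (hT : PatInv T) (hF : FTx T) (q : ℕ)
    (σ : Equiv.Perm (Fin q)) (τ : Fin q → Equiv.Perm (Fin k))
    (h : GG T (ptq (kx := kx) q) (Equiv.prodShear σ τ)) (j : Fin q) :
    GG T (pt1 (kx := kx)) (τ j) := by
  apply gg1_of_T hF
  have h1 := h ((List.finRange k).map fun y => (j, y))
  rw [List.map_map, List.map_map] at h1
  have e1 : (List.finRange k).map ((fun p => ptq (kx := kx) q (Equiv.prodShear σ τ p)) ∘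
      fun y => (j, y)) = prt (σ j).val 0 ((List.finRange k).map (τ j)) := by
    unfold prt
    rw [List.map_map]
    rfl
  have e2 : (List.finRange k).map (ptq (kx := kx) q ∘ fun y => (j, y)) =
      prt j.val 0 (List.finRange k) := rfl
  rw [e1, e2, mv_chunk hT _ 0, mv_chunk hT j.val 0] at h1
  exact h1

/-- The twist `t` of the row `j`. -/
def ej (q : ℕ) (j : Fin q) (t : Equiv.Perm (Fin k)) : Equiv.Perm (Fin q × Fin k) :=
  Equiv.prodShear 1 fun i => if i = j then t else 1

/-- Twists of the last row are invisible. -/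
theorem ej_last {T : List (Idx kx k) → L} (hT : PatInv T) (hF : FTx T) (hL : LAST T) (q : ℕ)
    (t : Equiv.Perm (Fin k)) (ht : GG T (pt1 (kx := kx)) t) :
    GG T (ptq (kx := kx) (q + 1)) (ej (q + 1) (Fin.last q) t) := by
  refine GG.of_all hF (pts k (q + 1)) (mem_pts (q + 1)) ?_
  unfold ej
  rw [map_pts]
  have e0 : (pts k (q + 1)).map (ptq (kx := kx) (q + 1)) =
      ((List.finRange (q + 1)).map fun j => prt j.val 0 (List.finRange k)).flatten := by
    unfold pts
    rw [map_flat]
    congr 1
    refine List.map_congr_left (fun j _ => ?_)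
    rw [List.map_map]
    rfl
  rw [e0, List.finRange_succ_last, List.map_append, List.map_append, List.flatten_append,
    List.flatten_append, List.map_map, List.map_map]
  have e1 : ((fun j : Fin (q + 1) => (prt ((1 : Equiv.Perm (Fin (q + 1))) j).val 0
      ((List.finRange k).map ((if j = Fin.last q then t else 1 : Equiv.Perm (Fin k)))) :
        List (Idx kx k))) ∘ Fin.castSucc) =
      (fun j => prt j.val 0 (List.finRange k)) ∘ Fin.castSucc := by
    funext j
    show (prt j.castSucc.val 0 ((List.finRange k).map ((if j.castSucc = Fin.last q then t else 1 :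
      Equiv.Perm (Fin k)))) : List (Idx kx k)) = prt j.castSucc.val 0 (List.finRange k)
    rw [if_neg (Fin.castSucc_lt_last j).ne]
    congr 1
    exact List.map_id _
  rw [e1]
  have e2 : ([Fin.last q].map fun j : Fin (q + 1) => (prt ((1 : Equiv.Perm (Fin (q + 1))) j).val 0
      ((List.finRange k).map ((if j = Fin.last q then t else 1 : Equiv.Perm (Fin k)))) :
        List (Idx kx k))).flatten = prt q 0 ((List.finRange k).map t) := by
    rw [List.map_singleton, List.flatten_singleton, if_pos rfl]
    rfl
  have e3 : ([Fin.last q].map fun j : Fin (q + 1) => (prt j.val 0 (List.finRange k) :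
        List (Idx kx k))).flatten = row q 0 := by
    rw [List.map_singleton, List.flatten_singleton]
    rfl
  rw [e2, e3]
  refine hL q _ _ ?_ ?_ ?_ ?_ ?_
  · intro p hp
    obtain ⟨l, hl, hpl⟩ := List.mem_flatten.mp hp
    obtain ⟨j, _, rfl⟩ := List.mem_map.mp hl
    obtain ⟨y, _, rfl⟩ := List.mem_map.mp hpl
    exact j.2
  · intro p hp
    obtain ⟨y, _, rfl⟩ := List.mem_map.mp hp
    exact le_refl _
  · unfold prt
    rw [List.map_map]
    refine (List.nodup_finRange k).map ?_
    intro x y hxy
    have h1 : (q, (Sum.inr (0, t x) : Fin kx ⊕ ℕ × Fin k)) = (q, .inr (0, t y)) := hxy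
    exact t.injective (Prod.ext_iff.mp (Sum.inr.inj (Prod.ext_iff.mp h1).2)).2
  · unfold prt
    rw [List.length_map, List.length_map, List.length_finRange]
  · rw [mv_chunk hT q 0]
    have h1 := ht (List.finRange k)
    have e4 : (List.finRange k).map (fun p => pt1 (kx := kx) (t p)) =
        prt 0 0 ((List.finRange k).map t) := by
      unfold prt
      rw [List.map_map]
      rfl
    rw [e4] at h1
    exact h1

/-- the values of the members of `finRange` -/
theorem map_val_finRange (q : ℕ) : (List.finRange q).map (fun j => j.val) = List.range q := by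
  refine List.ext_getElem (by simp) (fun i h1 h2 => ?_)
  simp

/-- The untwisted rows as images of points. -/
theorem rws_range (q : ℕ) : (pts k q).map (ptq (kx := kx) q) = rws (List.range q) := by
  unfold pts rws
  rw [map_flat, ← map_val_finRange, List.map_map]
  congr 1
  refine List.map_congr_left (fun j _ => ?_)
  rw [List.map_map]
  rfl

/-- **Row GRP.** -/
theorem pf_GRP : T_GRP := by
  intro kx k L T q hT hF hL hH
  -- the hypothesis for permutations
  have hH1 : ∀ σ : Equiv.Perm (Fin q), ∃ τ : Fin q → Equiv.Perm (Fin k),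
      GG T (ptq (kx := kx) q) (Equiv.prodShear σ τ) := by
    intro σ
    have hp : ((List.finRange q).map fun j => (σ j).val).Perm (List.range q) := by
      rw [← map_val_finRange]
      have h1 := (Equiv.Perm.map_finRange_perm σ).map (fun j : Fin q => j.val)
      rw [List.map_map] at h1
      exact h1
    obtain ⟨as, h1, h2, h3⟩ := hH _ hp
    have h4 : ∀ j : Fin q, ∃ t : Equiv.Perm (Fin k),
        as[j.val]'(by rw [h1]; exact j.2) = (List.finRange k).map t := by
      intro j
      have hj : j.val < as.length := by rw [h1]; exact j.2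
      have h5 := h2 _ (List.getElem_mem hj)
      exact exists_perm _ h5.1 h5.2
    choose τ hτ using h4
    refine ⟨τ, GG.of_all hF (pts k q) (mem_pts q) ?_⟩
    rw [map_pts, rws_range, ← h3]
    congr 1
    unfold trw
    congr 1
    refine List.ext_getElem (by simp [h1]) (fun i h5 h6 => ?_)
    rw [List.getElem_map, List.getElem_zipWith, List.getElem_map, List.getElem_finRange]
    have h7 : i < q := by
      rw [List.length_map, List.length_finRange] at h5
      exact h5
    have h8 := hτ ⟨i, h7⟩
    show prt (σ ⟨i, _⟩).val 0 ((List.finRange k).map (τ ⟨i, _⟩)) = prt (σ ⟨i, _⟩).val 0 _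
    rw [h8]
  -- all twists of one row
  have hE : ∀ (j : Fin q) (t : Equiv.Perm (Fin k)), GG T (pt1 (kx := kx)) t →
      GG T (ptq (kx := kx) q) (ej q j t) := by
    intro j t ht
    obtain ⟨q', rfl⟩ : ∃ q', q = q' + 1 := ⟨q - 1, by have := j.2; omega⟩
    obtain ⟨τ, hτ⟩ := hH1 (Equiv.swap (Fin.last q') j)
    have h1 := gg1_of_ggq hT hF _ _ _ hτ (Fin.last q')
    have h2 := ej_last hT hF hL q' _ ((h1.inv.mul ht).mul h1)
    have h3 := (hτ.mul h2).mul hτ.inv
    have h4 : Equiv.prodShear (Equiv.swap (Fin.last q') j) τ *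
        ej (q' + 1) (Fin.last q') ((τ (Fin.last q'))⁻¹ * t * τ (Fin.last q')) *
        (Equiv.prodShear (Equiv.swap (Fin.last q') j) τ)⁻¹ = ej (q' + 1) j t := by
      rw [mul_inv_eq_iff_eq_mul]
      refine Equiv.ext (fun p => ?_)
      obtain ⟨i, y⟩ := p
      show (Equiv.swap (Fin.last q') j i, τ i ((if i = Fin.last q' then
          (τ (Fin.last q'))⁻¹ * t * τ (Fin.last q') else 1 : Equiv.Perm (Fin k)) y)) =
        (Equiv.swap (Fin.last q') j i, (if Equiv.swap (Fin.last q') j i = j then t else 1 :
          Equiv.Perm (Fin k)) (τ i y))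
      by_cases hi : i = Fin.last q'
      · subst hi
        rw [if_pos rfl, if_pos (Equiv.swap_apply_left _ _)]
        congr 1
        exact (τ (Fin.last q')).apply_symm_apply _
      · rw [if_neg hi, if_neg (fun h => hi ?_)]
        · rfl
        · exact (Equiv.swap (Fin.last q') j).injective
            (h.trans (Equiv.swap_apply_left (Fin.last q') j).symm)
    rw [h4] at h3
    exact h3
  -- the products of twists
  have hS : ∀ (τ : Fin q → Equiv.Perm (Fin k)), (∀ j, GG T (pt1 (kx := kx)) (τ j)) →
      ∀ S : Finset (Fin q), GG T (ptq (kx := kx) q)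
        (Equiv.prodShear 1 fun j => if j ∈ S then τ j else 1) := by
    intro τ hτ S
    induction S using Finset.induction_on with
    | empty =>
      intro z
      have e1 : (fun p => (ptq (kx := kx) q ((Equiv.prodShear (1 : Equiv.Perm (Fin q))
          fun j => if j ∈ (∅ : Finset (Fin q)) then τ j else 1) p))) = ptq q := by
        funext p
        show ptq q (p.1, (if p.1 ∈ (∅ : Finset (Fin q)) then τ p.1 else 1 :
          Equiv.Perm (Fin k)) p.2) = _
        rw [if_neg (Finset.notMem_empty _)]
        rfl
      rw [e1]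
    | insert a S ha ih =>
      have h1 := (hE a (τ a) (hτ a)).mul ih
      have h2 : ej q a (τ a) * (Equiv.prodShear (1 : Equiv.Perm (Fin q))
          fun j => if j ∈ S then τ j else 1) =
          Equiv.prodShear 1 fun j => if j ∈ insert a S then τ j else 1 := by
        refine Equiv.ext (fun p => ?_)
        obtain ⟨i, y⟩ := p
        show (i, (if i = a then τ a else 1 : Equiv.Perm (Fin k))
            ((if i ∈ S then τ i else 1 : Equiv.Perm (Fin k)) y)) =
          (i, (if i ∈ insert a S then τ i else 1 : Equiv.Perm (Fin k)) y)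
        by_cases hi : i = a
        · subst hi
          rw [if_pos rfl, if_neg ha, if_pos (Finset.mem_insert_self _ _)]
          rfl
        · rw [if_neg hi]
          by_cases hiS : i ∈ S
          · rw [if_pos hiS, if_pos (Finset.mem_insert_of_mem hiS)]
            rfl
          · rw [if_neg hiS, if_neg (fun h => (Finset.mem_insert.mp h).elim hi hiS)]
            rfl
      rw [h2] at h1
      exact h1
  intro js' hjs
  -- the permutation of the rows
  obtain ⟨σ, hσ⟩ : ∃ σ : Equiv.Perm (Fin q), js' = (List.finRange q).map fun j => (σ j).val := by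
    have hlt : ∀ x ∈ js', x < q := fun x hx => List.mem_range.mp (hjs.mem_iff.mp hx)
    have hb : (js'.pmap (fun x hx => (⟨x, hx⟩ : Fin q)) hlt).map (fun j => j.val) = js' := by
      rw [List.map_pmap]
      exact List.pmap_eq_self.mpr (fun _ _ => rfl)
    have hnd : (js'.pmap (fun x hx => (⟨x, hx⟩ : Fin q)) hlt).Nodup := by
      refine List.Nodup.of_map (fun j : Fin q => j.val) ?_
      rw [hb]
      exact hjs.nodup_iff.mpr List.nodup_range
    have hlen : (js'.pmap (fun x hx => (⟨x, hx⟩ : Fin q)) hlt).length = q := by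
      rw [List.length_pmap, hjs.length_eq, List.length_range]
    obtain ⟨σ, h1⟩ := exists_perm _ hnd hlen
    refine ⟨σ, ?_⟩
    rw [← hb, h1, List.map_map]
    rfl
  obtain ⟨τ, hτ⟩ := hH1 σ
  have h1 := hS τ (gg1_of_ggq hT hF _ _ _ hτ) Finset.univ
  have h2 := hτ.mul h1.inv
  have h3 : Equiv.prodShear σ τ * (Equiv.prodShear (1 : Equiv.Perm (Fin q))
      fun j => if j ∈ (Finset.univ : Finset (Fin q)) then τ j else 1)⁻¹ =
      Equiv.prodShear σ fun _ => 1 := by
    rw [mul_inv_eq_iff_eq_mul]
    refine Equiv.ext (fun p => ?_)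
    obtain ⟨i, y⟩ := p
    show (σ i, τ i y) = (σ i, (if i ∈ (Finset.univ : Finset (Fin q)) then τ i else 1 :
      Equiv.Perm (Fin k)) y)
    rw [if_pos (Finset.mem_univ _)]
  rw [h3] at h2
  have h4 := h2 (pts k q)
  rw [rws_range] at h4
  rw [← h4, map_pts, hσ]
  unfold rws
  rw [List.map_map]
  congr 2
  refine List.map_congr_left (fun j _ => ?_)
  show row (σ j).val 0 = prt (σ j).val 0 ((List.finRange k).map (1 : Equiv.Perm (Fin k)))
  unfold row
  congr 1
  exact (List.map_id _).symm

end

end Pool.Agent.H91.FKI
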