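import Pool.Agent.H91.FKI.GRP

/-!
# Rows which are not linked over the hub points split
-/

set_option autoImplicit false

namespace Pool.Agent.H91.FKI

open Set Pool.Agent.H75.HCI Pool.Agent.H16.FK

section

variable {kx k : ℕ} {L : Type}

/-- The enriched type with no fresh parts. -/
theorem TP_nil (T : List (Idx kx k) → L) (l : List (Idx kx k)) : TP T l [] = T l := by
  unfold TP
  have hg : Good ([] : List (List (Fin k))) := fun a ha => absurd ha List.not_mem_nil
  rw [if_pos hg]
  unfold frs
  simp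

/-- The type of the last part. -/
theorem ft_right {T : List (Idx kx k) → L} (hF : FTx T) (l v v' : List (Idx kx k))
    (hv : v.length = v'.length) (h : T (l ++ v) = T (l ++ v')) : T v = T v' := by
  have hs : ∀ v : List (Idx kx k), sel (l ++ v) ((List.range v.length).map fun i => l.length + i) =
      v := by
    intro v
    unfold sel
    rw [List.filterMap_map]
    have h1 : ((fun i => (l ++ v)[i]?) ∘ fun i => l.length + i) = fun i => v[i]? := by
      funext i
      show (l ++ v)[l.length + i]? = v[i]?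
      rw [List.getElem?_append_right (Nat.le_add_right _ _), Nat.add_sub_cancel_left]
    rw [h1]
    exact sel_range v
  have h1 := hF (l ++ v) (l ++ v') ((List.range v.length).map fun i => l.length + i)
    (by rw [List.length_append, List.length_append, hv]) h
  rw [hs v, hv, hs v'] at h1
  exact h1

/-- **Row NLK.** -/
theorem pf_NLK (_h1 : T_TPW) (h2 : T_FPX) : T_NLK := by
  classical
  intro kx k L T hA h hnl
  unfold Lk at hnl
  push Not at hnl
  obtain ⟨u, v, hu, hv, huv, hv', a, i, m, hand, hal, hak, hmiss, hTP⟩ := hnl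
  have hT1 : T (hub 0 h ++ u ++ v) = T (hub 0 h ++ u ++ prt i m a) := by
    have := congrFun hTP []
    rw [TP_nil, TP_nil] at this
    exact this
  have hnd : (u ++ v).Nodup := by
    refine huv.nodup_iff.mpr ?_
    unfold row prt
    refine (List.nodup_finRange k).map ?_
    intro x y hxy
    have h1 : ((0 : ℕ), (Sum.inr (0, x) : Fin kx ⊕ ℕ × Fin k)) = (0, .inr (0, y)) := hxy
    exact (Prod.ext_iff.mp (Sum.inr.inj (Prod.ext_iff.mp h1).2)).2
  have hrow : ∀ p, p ∈ u ++ v ↔ ∃ y : Fin k, p = (0, .inr (0, y)) := by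
    intro p
    rw [huv.mem_iff]
    unfold row prt
    rw [List.mem_map]
    constructor
    · rintro ⟨y, _, rfl⟩
      exact ⟨y, rfl⟩
    · rintro ⟨y, rfl⟩
      exact ⟨y, List.mem_finRange _, rfl⟩
  -- the coordinates of v
  obtain ⟨a', ha'⟩ : ∃ a' : List (Fin k), v = prt 0 0 a' := by
    have hall : ∀ p ∈ v, ∃ y : Fin k, p = (0, .inr (0, y)) :=
      fun p hp => (hrow p).mp (List.mem_append_right _ hp)
    clear hv hTP hT1 hal hnd huv hv' hrow
    induction v with
    | nil => exact ⟨[], rfl⟩
    | cons p v ih =>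
      obtain ⟨a', ha'⟩ := ih (fun p hp => hall p (List.mem_cons_of_mem _ hp))
      obtain ⟨y, hy⟩ := hall p List.mem_cons_self
      exact ⟨y :: a', by rw [hy, ha']; rfl⟩
  have hlen : a'.length = v.length := by
    rw [ha']
    unfold prt
    rw [List.length_map]
  have hlen2 : v.length = (prt i m a : List (Idx kx k)).length := by
    rw [← hal]
    unfold prt
    rw [List.length_map]
  have hnd' : a'.Nodup := by
    have h1 : v.Nodup := (List.nodup_append.mp hnd).2.1
    rw [ha'] at h1
    exact List.Nodup.of_map _ h1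
  have hTv : T (prt 0 0 a') = T (prt i m a) := by
    rw [← ha']
    exact ft_right hA.ft _ _ _ hlen2 hT1
  -- the row 1
  have hm1 : Miss 0 1 (hub 0 h ++ u) := by
    intro y hy
    rcases List.mem_append.mp hy with h3 | h3
    · unfold hub at h3
      obtain ⟨x, _, hx⟩ := List.mem_map.mp h3
      exact Sum.inl_ne_inr (Prod.ext_iff.mp hx).2
    · obtain ⟨z, hz⟩ := (hrow _).mp (List.mem_append_left _ h3)
      have h4 : ((1 : ℕ), y) = (0, z) := Sum.inr.inj (Prod.ext_iff.mp hz).2
      exact one_ne_zero (Prod.ext_iff.mp h4).1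
  have hT2 : T (hub 0 h ++ u ++ prt 0 1 a') = T (hub 0 h ++ u ++ v) := by
    rw [hT1]
    refine h2 kx k L T hA (hub 0 h ++ u) 0 1 i m a' a hnd' hand (by rw [hlen, hal])
      (by rw [hlen, ← hal]; exact hak) ?_ hm1 hmiss
    rw [mv_row hA.pat 0 1 0, hTv]
  -- the map
  let Φ : Idx kx k → Idx kx k := fun p => if p ∈ v then (p.1, p.2.elim Sum.inl fun z =>
    .inr (1, z.2)) else p
  let b : Fin k → Bool := fun y => decide (((0 : ℕ), (Sum.inr (0, y) : Fin kx ⊕ ℕ × Fin k)) ∈ v)
  have hΦhub : (hub 0 h : List (Idx kx k)).map Φ = hub 0 h := by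
    unfold hub
    rw [List.map_map]
    refine List.map_congr_left (fun x _ => ?_)
    show (if ((0 : ℕ), (Sum.inl x : Fin kx ⊕ ℕ × Fin k)) ∈ v then _ else _) = _
    rw [if_neg]
    intro h3
    obtain ⟨z, hz⟩ := (hrow _).mp (List.mem_append_right _ h3)
    exact Sum.inl_ne_inr (Prod.ext_iff.mp hz).2
  have hΦu : u.map Φ = u := by
    refine (List.map_congr_left (fun p hp => ?_)).trans (List.map_id _)
    show (if p ∈ v then _ else p) = p
    rw [if_neg]
    intro h3
    exact (List.nodup_append.mp hnd).2.2 p hp p h3 rfl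
  have hΦv : v.map Φ = prt 0 1 a' := by
    have h3 : ∀ p ∈ v, Φ p = (p.1, p.2.elim Sum.inl fun z => .inr (1, z.2)) :=
      fun p hp => if_pos hp
    rw [List.map_congr_left h3, ha']
    unfold prt
    rw [List.map_map]
    rfl
  have hfin := ft_map (P := Idx kx k) hA.ft (hub 0 h ++ u ++ v) (hub 0 h ++ row 0 0) Φ id
    (by
      rw [List.map_append, List.map_append, hΦhub, hΦu, hΦv, List.map_id]
      exact hT2)
    (by
      intro p hp
      rw [List.append_assoc]
      rcases List.mem_append.mp hp with h3 | h3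
      · exact List.mem_append_left _ h3
      · exact List.mem_append_right _ (huv.mem_iff.mpr h3))
  rw [List.map_id, List.map_append, hΦhub] at hfin
  refine ⟨b, ⟨?_, ?_⟩, ?_⟩
  · obtain ⟨p, hp⟩ := List.exists_mem_of_ne_nil v hv
    obtain ⟨y, rfl⟩ := (hrow p).mp (List.mem_append_right _ hp)
    exact ⟨y, decide_eq_true hp⟩
  · obtain ⟨p, hp⟩ := List.exists_mem_of_ne_nil u hu
    obtain ⟨y, rfl⟩ := (hrow p).mp (List.mem_append_left _ hp)
    exact ⟨y, decide_eq_false (fun h3 => (List.nodup_append.mp hnd).2.2 _ hp _ h3 rfl)⟩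
  · rw [← hfin]
    congr 2
    unfold row prt srow
    rw [List.map_map]
    refine List.map_congr_left (fun y _ => ?_)
    show (if ((0 : ℕ), (Sum.inr (0, y) : Fin kx ⊕ ℕ × Fin k)) ∈ v then
      ((0 : ℕ), (Sum.inr (1, y) : Fin kx ⊕ ℕ × Fin k)) else (0, .inr (0, y))) =
      (0, .inr (bh b y, y))
    by_cases hy : ((0 : ℕ), (Sum.inr (0, y) : Fin kx ⊕ ℕ × Fin k)) ∈ v
    · have h3 : bh b y = 1 := if_pos (decide_eq_true hy)
      rw [if_pos hy, h3]
    · have h3 : bh b y = 0 := if_neg (by
        show ¬ (decide _ = true)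
        rw [decide_eq_true_eq]
        exact hy)
      rw [if_neg hy, h3]

end

end Pool.Agent.H91.FKI
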