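import Pool.Agent.H16.FK.TargetsB

/-!
# Proper parts of rows can be moved
-/

set_option autoImplicit false

namespace Pool.Agent.H91.FKI

open Set Pool.Agent.H75.HCI Pool.Agent.H16.FK Pool.Agent.H71.HCI

section tame

variable {C : Type} {M : List ℕ → C} {I J : Type}

/-- A tame ultrafilter commutes with all ultrafilters on finite tuples: constant coordinates do no
harm. -/
theorem tame_all (hM : FinL M) {V : Ultrafilter (I → ℕ)} (hV : Tame M V) [Finite J]
    (W : Ultrafilter (J → ℕ)) : typ M (prU V W) = typ M (re (prU W V) Sum.swap) := by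
  classical
  let P : J → Prop := fun j => ∀ a, ∀ᶠ x in (W : Filter (J → ℕ)), x j ≠ a
  have hex : ∀ j : J, ¬ P j → ∃ a, ∀ᶠ x in (W : Filter (J → ℕ)), x j = a := by
    intro j hj
    obtain ⟨a, ha⟩ := not_forall.mp hj
    rcases W.em (fun x => x j = a) with h | h
    · exact ⟨a, h⟩
    · exact absurd h ha
  let g : J → ℕ := fun j => if h : P j then 0 else (hex j h).choose
  let rep : ℕ ⊕ (I ⊕ J) → ℕ ⊕ (I ⊕ {j // P j}) := fun
    | .inl n => .inl n
    | .inr (.inl i) => .inr (.inl i)
    | .inr (.inr j) => if h : P j then .inr (.inr ⟨j, h⟩) else .inl (g j)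
  have hW : ∀ᶠ y in (W : Filter (J → ℕ)), ∀ j, ¬ P j → y j = g j := by
    rw [Filter.eventually_all]
    intro j
    by_cases hj : P j
    · exact Filter.Eventually.of_forall (fun y h => absurd hj h)
    · have hg : g j = (hex j hj).choose := dif_neg hj
      filter_upwards [(hex j hj).choose_spec] with y hy _
      rw [hy, hg]
  let W1 : Ultrafilter ({j // P j} → ℕ) := re W Subtype.val
  have hNP : NP W1 := fun j a => (ev_re (V := W)).2 (j.2 a)
  have hrep : ∀ (x : I → ℕ) (y : J → ℕ), (∀ j, ¬ P j → y j = g j) → ∀ u : List (ℕ ⊕ (I ⊕ J)),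
      (u.map rep).map (Sum.elim id (Sum.elim x (y ∘ Subtype.val))) =
        u.map (Sum.elim id (Sum.elim x y)) := by
    intro x y hy u
    rw [List.map_map]
    refine List.map_congr_left (fun a _ => ?_)
    rcases a with n | i | j
    · rfl
    · rfl
    · show Sum.elim id (Sum.elim x (y ∘ Subtype.val))
        (if h : P j then (Sum.inr (Sum.inr ⟨j, h⟩) : ℕ ⊕ (I ⊕ {j // P j})) else .inl (g j)) = y j
      by_cases hj : P j
      · rw [dif_pos hj]
        rfl
      · rw [dif_neg hj, hy j hj]
        rfl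
  have key1 : ∀ u, typ M (prU V W) u = typ M (prU V W1) (u.map rep) := by
    intro u
    refine typ_eq ?_
    rw [ev_prU]
    have h1 := ev_prU.1 (typ_spec hM (prU V W1) (u.map rep))
    filter_upwards [h1] with x hx
    have hx' := (ev_re (V := W)).1 hx
    filter_upwards [hx', hW] with y hy1 hy2
    rw [← hy1, hrep x y hy2]
  have key2 : ∀ u, typ M (re (prU W V) Sum.swap) u =
      typ M (re (prU W1 V) Sum.swap) (u.map rep) := by
    intro u
    refine typ_eq ?_
    rw [ev_re, ev_prU]
    have h1 := ev_prU.1 (ev_re.1 (typ_spec hM (re (prU W1 V) Sum.swap) (u.map rep)))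
    have h2 := (ev_re (V := W)).1 h1
    filter_upwards [h2, hW] with y hy1 hy2
    filter_upwards [hy1] with x hx
    rw [← hx]
    have e1 : ∀ (y : J → ℕ) (x : I → ℕ), Sum.elim y x ∘ Sum.swap = Sum.elim x y := by
      intro y x
      funext a
      rcases a with a | a <;> rfl
    have e2 : Sum.elim (y ∘ (Subtype.val : {j // P j} → J)) x ∘ Sum.swap =
        Sum.elim x (y ∘ Subtype.val) := by
      funext a
      rcases a with a | a <;> rfl
    rw [e1, e2, hrep x y hy2]
  funext u
  rw [key1, key2, hV _ W1 hNP]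

end tame

section runs

variable {kc ku k : ℕ} (D : Dat kc ku k)

theorem run_append (σ σ' : List (ℕ × ℕ × ℕ)) (st : Sta kc ku k) (φ : Sta kc ku k → Prop) :
    (∀ᶠ s in (run D (σ ++ σ') st : Filter (Sta kc ku k)), φ s) ↔
      ∀ᶠ s1 in (run D σ st : Filter (Sta kc ku k)),
        ∀ᶠ s in (run D σ' s1 : Filter (Sta kc ku k)), φ s := by
  induction σ generalizing st with
  | nil =>
    show (∀ᶠ s in (run D σ' st : Filter (Sta kc ku k)), φ s) ↔
      ∀ᶠ s1 in ((pure st : Ultrafilter (Sta kc ku k)) : Filter (Sta kc ku k)), _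
    rw [Ultrafilter.coe_pure, Filter.eventually_pure]
  | cons it σ ih =>
    show (∀ᶠ s in ((step D it st).bind (run D (σ ++ σ')) : Filter (Sta kc ku k)), φ s) ↔
      ∀ᶠ s1 in ((step D it st).bind (run D σ) : Filter (Sta kc ku k)), _
    rw [mem_bind, mem_bind]
    exact Filter.eventually_congr (Filter.Eventually.of_forall fun s => ih s)

theorem run_cons (it : ℕ × ℕ × ℕ) (σ : List (ℕ × ℕ × ℕ)) (st : Sta kc ku k)
    (φ : Sta kc ku k → Prop) :
    (∀ᶠ s in (run D (it :: σ) st : Filter (Sta kc ku k)), φ s) ↔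
      ∀ᶠ s1 in (step D it st : Filter (Sta kc ku k)),
        ∀ᶠ s in (run D σ s1 : Filter (Sta kc ku k)), φ s := Iff.rfl

theorem run_nil (st : Sta kc ku k) (φ : Sta kc ku k → Prop) :
    (∀ᶠ s in (run D [] st : Filter (Sta kc ku k)), φ s) ↔ φ st := by
  show (∀ᶠ s in ((pure st : Ultrafilter (Sta kc ku k)) : Filter (Sta kc ku k)), φ s) ↔ φ st
  rw [Ultrafilter.coe_pure, Filter.eventually_pure]

/-- The state after the row `(i, m)` with the values `y`. -/
def setRow (i m : ℕ) (y : Fin k → ℕ) (st : Sta kc ku k) : Sta kc ku k :=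
  ⟨st.j, fun p => if p.1 = i then
    Sum.elim (fun _ => st.pt p) (fun q => if q.1 = m then y q.2 else st.pt p) p.2 else st.pt p⟩

theorem step_row (i m : ℕ) (st : Sta kc ku k) (φ : Sta kc ku k → Prop) :
    (∀ᶠ s in (step D (i, 1, m) st : Filter (Sta kc ku k)), φ s) ↔
      ∀ᶠ y in (D.V (st.j i) : Filter (Fin k → ℕ)), φ (setRow i m y st) := by
  unfold step
  rw [if_neg (show ¬ ((1 : ℕ) = 0) by decide), if_pos rfl]
  rfl

theorem step_couple (A : Set (Idx (kc + ku) k)) (it : ℕ × ℕ × ℕ) (st st' : Sta kc ku k)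
    (hj : st.j = st'.j) (hp : ∀ p ∈ A, st.pt p = st'.pt p) (ψ : Sta kc ku k → Prop)
    (hψ : ∀ s s' : Sta kc ku k, s.j = s'.j → (∀ p ∈ A, s.pt p = s'.pt p) → (ψ s ↔ ψ s')) :
    (∀ᶠ s in (step D it st : Filter (Sta kc ku k)), ψ s) ↔
      ∀ᶠ s in (step D it st' : Filter (Sta kc ku k)), ψ s := by
  unfold step
  by_cases h0 : it.2.1 = 0
  · rw [if_pos h0, if_pos h0, Ultrafilter.coe_map, Ultrafilter.coe_map, Filter.eventually_map,
      Filter.eventually_map]
    refine Filter.eventually_congr (Filter.Eventually.of_forall fun x => hψ _ _ ?_ ?_)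
    · show Function.update st.j it.1 x = Function.update st'.j it.1 x
      rw [hj]
    · intro p hpA
      show (if p.1 = it.1 then _ else _) = (if p.1 = it.1 then _ else _)
      rw [hp p hpA]
  · rw [if_neg h0, if_neg h0]
    by_cases h1 : it.2.1 = 1
    · rw [if_pos h1, if_pos h1, hj, Ultrafilter.coe_map, Ultrafilter.coe_map,
        Filter.eventually_map, Filter.eventually_map]
      refine Filter.eventually_congr (Filter.Eventually.of_forall fun x => hψ _ _ ?_ ?_)
      · rfl
      · intro p hpA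
        show (if p.1 = it.1 then _ else _) = (if p.1 = it.1 then _ else _)
        rw [hp p hpA]
    · rw [if_neg h1, if_neg h1, hj, Ultrafilter.coe_map, Ultrafilter.coe_map,
        Filter.eventually_map, Filter.eventually_map]
      refine Filter.eventually_congr (Filter.Eventually.of_forall fun x => hψ _ _ ?_ ?_)
      · rfl
      · intro p hpA
        show (if p.1 = it.1 then _ else _) = (if p.1 = it.1 then _ else _)
        rw [hp p hpA]

/-- Runs from states which agree on `A` agree on `A`. -/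
theorem couple (A : Set (Idx (kc + ku) k)) (φ : Sta kc ku k → Prop)
    (hφ : ∀ s s' : Sta kc ku k, s.j = s'.j → (∀ p ∈ A, s.pt p = s'.pt p) → (φ s ↔ φ s'))
    (σ : List (ℕ × ℕ × ℕ)) (st st' : Sta kc ku k) (hj : st.j = st'.j)
    (hp : ∀ p ∈ A, st.pt p = st'.pt p) :
    (∀ᶠ s in (run D σ st : Filter (Sta kc ku k)), φ s) ↔
      ∀ᶠ s in (run D σ st' : Filter (Sta kc ku k)), φ s := by
  induction σ generalizing st st' with
  | nil =>
    rw [run_nil, run_nil]
    exact hφ _ _ hj hp
  | cons it σ ih =>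
    rw [run_cons, run_cons]
    exact step_couple D A it st st' hj hp _ (fun s s' h1 h2 => ih s s' h1 h2)

/-- A row which does not occur in the program is not changed. -/
theorem run_keep (i m : ℕ) (σ : List (ℕ × ℕ × ℕ)) (st : Sta kc ku k)
    (hσ : ∀ it ∈ σ, ¬ (it.1 = i ∧ it.2.1 = 1 ∧ it.2.2 = m)) :
    ∀ᶠ s in (run D σ st : Filter (Sta kc ku k)),
      ∀ y : Fin k, s.pt (i, .inr (m, y)) = st.pt (i, .inr (m, y)) := by
  induction σ generalizing st with
  | nil =>
    rw [run_nil]
    exact fun _ => rfl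
  | cons it σ ih =>
    rw [run_cons]
    have h1 : ∀ᶠ s1 in (step D it st : Filter (Sta kc ku k)),
        ∀ y : Fin k, s1.pt (i, .inr (m, y)) = st.pt (i, .inr (m, y)) := by
      have hit := hσ it List.mem_cons_self
      unfold step
      by_cases h0 : it.2.1 = 0
      · rw [if_pos h0, Ultrafilter.coe_map, Filter.eventually_map]
        refine Filter.Eventually.of_forall fun x y => ?_
        show (if i = it.1 then _ else _) = _
        exact ite_self _
      · rw [if_neg h0]
        by_cases h1 : it.2.1 = 1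
        · rw [if_pos h1, Ultrafilter.coe_map, Filter.eventually_map]
          refine Filter.Eventually.of_forall fun x y => ?_
          show (if i = it.1 then (if m = it.2.2 then x y else _) else _) = _
          by_cases hi : i = it.1
          · rw [if_pos hi, if_neg (fun hm => hit ⟨hi.symm, h1, hm.symm⟩)]
          · rw [if_neg hi]
        · rw [if_neg h1, Ultrafilter.coe_map, Filter.eventually_map]
          refine Filter.Eventually.of_forall fun x y => ?_
          show (if i = it.1 then _ else _) = _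
          exact ite_self _
    filter_upwards [h1] with s1 hs1
    filter_upwards [ih s1 (fun it hit => hσ it (List.mem_cons_of_mem _ hit))] with s hs y
    rw [hs y, hs1 y]

/-- The index of a chunk which is not started is not changed. -/
theorem run_j_keep (i : ℕ) (σ : List (ℕ × ℕ × ℕ)) (st : Sta kc ku k)
    (hσ : ∀ it ∈ σ, ¬ (it.1 = i ∧ it.2.1 = 0)) :
    ∀ᶠ s in (run D σ st : Filter (Sta kc ku k)), s.j i = st.j i := by
  induction σ generalizing st with
  | nil =>
    rw [run_nil]
  | cons it σ ih =>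
    rw [run_cons]
    have h1 : ∀ᶠ s1 in (step D it st : Filter (Sta kc ku k)), s1.j i = st.j i := by
      have hit := hσ it List.mem_cons_self
      unfold step
      by_cases h0 : it.2.1 = 0
      · rw [if_pos h0, Ultrafilter.coe_map, Filter.eventually_map]
        refine Filter.Eventually.of_forall fun x => ?_
        exact Function.update_of_ne (fun h => hit ⟨h.symm, h0⟩) _ _
      · rw [if_neg h0]
        by_cases h1 : it.2.1 = 1
        · rw [if_pos h1, Ultrafilter.coe_map, Filter.eventually_map]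
          exact Filter.Eventually.of_forall fun x => rfl
        · rw [if_neg h1, Ultrafilter.coe_map, Filter.eventually_map]
          exact Filter.Eventually.of_forall fun x => rfl
    filter_upwards [h1] with s1 hs1
    filter_upwards [ih s1 (fun it hit => hσ it (List.mem_cons_of_mem _ hit))] with s hs
    rw [hs, hs1]

/-- The index of a chunk is random. -/
theorem run_j (Q : ℕ → Prop) (hQ : ∀ᶠ j in (D.UU : Filter ℕ), Q j) (i : ℕ)
    (σ : List (ℕ × ℕ × ℕ)) (st : Sta kc ku k) (hσ : ∃ it ∈ σ, it.1 = i ∧ it.2.1 = 0) :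
    ∀ᶠ s in (run D σ st : Filter (Sta kc ku k)), Q (s.j i) := by
  induction σ generalizing st with
  | nil =>
    obtain ⟨it, hit, _⟩ := hσ
    exact absurd hit List.not_mem_nil
  | cons it σ ih =>
    rw [run_cons]
    by_cases h : ∃ it ∈ σ, it.1 = i ∧ it.2.1 = 0
    · exact Filter.Eventually.of_forall fun s => ih s h
    · have hit : it.1 = i ∧ it.2.1 = 0 := by
        obtain ⟨it', hit', h'⟩ := hσ
        rcases List.mem_cons.mp hit' with rfl | h2
        · exact h'
        · exact absurd ⟨it', h2, h'⟩ h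
      have hk : ∀ s1 : Sta kc ku k, Q (s1.j i) →
          ∀ᶠ s in (run D σ s1 : Filter (Sta kc ku k)), Q (s.j i) := by
        intro s1 hs1
        filter_upwards [run_j_keep D i σ s1 (fun it' hit' h' => h ⟨it', hit', h'⟩)] with s hs
        rw [hs]
        exact hs1
      unfold step
      rw [if_pos hit.2, Ultrafilter.coe_map, Filter.eventually_map]
      filter_upwards [hQ] with j hj
      refine hk _ ?_
      show Q (Function.update st.j it.1 j i)
      rw [hit.1, Function.update_self]
      exact hj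

end runs

section main

/-- The word of a tuple `L` and `n` new coordinates. -/
def wd (z L : List ℕ) (n : ℕ) (w : List ℕ) : List (ℕ ⊕ Fin n) :=
  sel (z.map Sum.inl ++ (L.map Sum.inl ++ (List.finRange n).map Sum.inr)) w

/-- The claim for one program. -/
theorem claim {C : Type} {kc ku k : ℕ} {M : List ℕ → C} (D : Dat kc ku k) (hM : FinL M)
    (a : List (Fin k)) (τ : List (ℕ ⊕ Fin a.length) → C)
    (hτ : ∀ᶠ j in (D.UU : Filter ℕ), Tame M (re (D.V j) a.get) ∧ typ M (re (D.V j) a.get) = τ)
    (l : List (Idx (kc + ku) k)) (i m : ℕ) (hmiss : Miss i m l) (σ1 σ2 : List (ℕ × ℕ × ℕ))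
    (hσ1 : ∃ it ∈ σ1, it.1 = i ∧ it.2.1 = 0)
    (hσ2 : ∀ it ∈ σ2, ¬ (it.1 = i ∧ it.2.1 = 1 ∧ it.2.2 = m)) (st : Sta kc ku k) (w : List ℕ)
    (v : C)
    (hv : ∀ᶠ s in (run D (σ1 ++ (i, 1, m) :: σ2) st : Filter (Sta kc ku k)),
      M (sel (D.z ++ (l ++ prt i m a).map s.pt) w) = v) :
    ∀ᶠ s in (run D (σ1 ++ σ2) st : Filter (Sta kc ku k)),
      τ (wd D.z (l.map s.pt) a.length w) = v := by
  rw [run_append] at hv ⊢
  filter_upwards [hv, run_j D _ hτ i σ1 st hσ1] with s1 h1 h2
  rw [run_cons, step_row] at h1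
  -- the ultrafilter of the points of l
  let W : Ultrafilter (Fin l.length → ℕ) :=
    (run D σ2 s1).map (fun s (n : Fin l.length) => s.pt (l.get n))
  have hmap : ∀ (s : Sta kc ku k), l.map s.pt =
      (List.finRange l.length).map (fun n => s.pt (l.get n)) := by
    intro s
    refine List.ext_getElem (by simp) (fun n h3 h4 => ?_)
    simp
  have hmapa : ∀ y : Fin k → ℕ, a.map y = (List.finRange a.length).map (fun n => y (a.get n)) := by
    intro y
    refine List.ext_getElem (by simp) (fun n h3 h4 => ?_)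
    simp
  let u : List (ℕ ⊕ (Fin a.length ⊕ Fin l.length)) :=
    sel (D.z.map Sum.inl ++ ((List.finRange l.length).map (fun n => Sum.inr (Sum.inr n)) ++
      (List.finRange a.length).map (fun n => Sum.inr (Sum.inl n)))) w
  have hu : typ M (prU (re (D.V (s1.j i)) a.get) W) u = v := by
    refine typ_eq ?_
    rw [ev_prU, ev_re]
    filter_upwards [h1] with y hy
    -- the rest of the program does not see the row
    have h3 : ∀ᶠ s in (run D σ2 (setRow i m y s1) : Filter (Sta kc ku k)),
        M (sel (D.z ++ (l.map s.pt ++ a.map y)) w) = v := by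
      filter_upwards [hy, run_keep D i m σ2 (setRow i m y s1) hσ2] with s h4 h5
      rw [← h4, List.map_append]
      have h6 : (prt i m a).map s.pt = a.map y := by
        unfold prt
        rw [List.map_map]
        refine List.map_congr_left (fun x _ => ?_)
        show s.pt (i, .inr (m, x)) = y x
        rw [h5 x]
        show (if i = i then (if m = m then y x else _) else _) = y x
        rw [if_pos rfl, if_pos rfl]
      rw [h6]
    have h4 : ∀ᶠ s in (run D σ2 s1 : Filter (Sta kc ku k)),
        M (sel (D.z ++ (l.map s.pt ++ a.map y)) w) = v := by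
      refine (couple D {p | p ∈ l} _ ?_ σ2 (setRow i m y s1) s1 rfl ?_).1 h3
      · intro s s' _ hp
        rw [List.map_congr_left (fun p hpl => hp p hpl)]
      · intro p hpl
        show (if p.1 = i then Sum.elim (fun _ => s1.pt p)
          (fun q : ℕ × Fin k => if q.1 = m then y q.2 else s1.pt p) p.2 else s1.pt p) = s1.pt p
        by_cases hp1 : p.1 = i
        · rw [if_pos hp1]
          obtain ⟨p1, p2⟩ := p
          rcases p2 with b | q
          · rfl
          · show (if q.1 = m then y q.2 else _) = _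
            rw [if_neg]
            intro hq
            apply hmiss q.2
            have e1 : ((i, .inr (m, q.2)) : Idx (kc + ku) k) = (p1, .inr q) := by
              rw [← hq, ← (show p1 = i from hp1)]
            rw [e1]
            exact hpl
        · rw [if_neg hp1]
    have h5 : ∀ᶠ x in (W : Filter (Fin l.length → ℕ)),
        M (sel (D.z ++ ((List.finRange l.length).map x ++ a.map y)) w) = v := by
      show ∀ᶠ s in (run D σ2 s1 : Filter (Sta kc ku k)), _
      filter_upwards [h4] with s hs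
      rw [← hs, hmap s]
    filter_upwards [h5] with x hx
    rw [← hx]
    congr 1
    show (sel _ w).map _ = _
    rw [← sel_map, List.map_append, List.map_append, List.map_map, List.map_map, List.map_map,
      hmapa y]
    congr 2
    exact List.map_id _
  rw [tame_all hM h2.1 W, typ_re hM] at hu
  have h6 := typ_prU hM W (re (D.V (s1.j i)) a.get) (u.map (Sum.map id Sum.swap))
  rw [hu] at h6
  have h7 : ∀ᶠ s in (run D σ2 s1 : Filter (Sta kc ku k)),
      typ M (re (D.V (s1.j i)) a.get)
        ((u.map (Sum.map id Sum.swap)).map (sb fun n : Fin l.length => s.pt (l.get n))) = v := h6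
  filter_upwards [h7] with s hs
  rw [h2.2] at hs
  rw [← hs]
  congr 1
  unfold wd
  rw [hmap s]
  show _ = ((sel _ w).map _).map _
  rw [← sel_map, ← sel_map]
  simp only [List.map_append, List.map_map]
  rfl

theorem mem_box (n s : ℕ) (it : ℕ × ℕ × ℕ) : it ∈ box n s ↔
    it.1 < n ∧ (it.2 = (0, 0) ∨ (∃ m < s, it.2 = (1, m)) ∨ it.2 = (2, 0)) := by
  unfold box
  rw [List.mem_flatMap]
  constructor
  · rintro ⟨i, hi, h⟩
    rw [List.mem_range] at hi
    rcases List.mem_append.mp h with h | h
    · rcases List.mem_cons.mp h with h | h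
      · rw [h]
        exact ⟨hi, Or.inl rfl⟩
      · obtain ⟨m, hm, rfl⟩ := List.mem_map.mp h
        exact ⟨hi, Or.inr (Or.inl ⟨m, List.mem_range.mp hm, rfl⟩)⟩
    · rw [List.mem_singleton.mp h]
      exact ⟨hi, Or.inr (Or.inr rfl)⟩
  · rintro ⟨hi, h⟩
    refine ⟨it.1, List.mem_range.mpr hi, ?_⟩
    obtain ⟨i, it2⟩ := it
    rcases h with h | ⟨m, hm, h⟩ | h
    · have h' : it2 = (0, 0) := h
      subst h'
      exact List.mem_append_left _ List.mem_cons_self
    · have h' : it2 = (1, m) := h
      subst h'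
      exact List.mem_append_left _ (List.mem_cons_of_mem _
        (List.mem_map.mpr ⟨m, List.mem_range.mpr hm, rfl⟩))
    · have h' : it2 = (2, 0) := h
      subst h'
      exact List.mem_append_right _ (List.mem_singleton.mpr rfl)

/-- The box is a program. -/
theorem prg_box (n s : ℕ) : Prg ∅ (box n s) := by
  refine ⟨?_, ?_, fun a _ b hb => absurd hb (Set.notMem_empty b), ?_⟩
  · unfold box
    rw [List.pairwise_flatMap]
    constructor
    · intro i _
      rw [List.pairwise_append]
      refine ⟨?_, List.pairwise_singleton _ _, ?_⟩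
      · rw [List.pairwise_cons]
        constructor
        · intro a ha
          obtain ⟨m, _, rfl⟩ := List.mem_map.mp ha
          exact Or.inr ⟨rfl, Or.inl (by show (0 : ℕ) < 1; omega)⟩
        · rw [List.pairwise_map]
          refine List.Pairwise.imp ?_ List.pairwise_lt_range
          intro a b hab
          exact Or.inr ⟨rfl, Or.inr ⟨rfl, hab⟩⟩
      · intro a ha b hb
        rw [List.mem_singleton.mp hb]
        rcases List.mem_cons.mp ha with ha | ha
        · rw [ha]
          exact Or.inr ⟨rfl, Or.inl (by show (0 : ℕ) < 2; omega)⟩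
        · obtain ⟨m, _, rfl⟩ := List.mem_map.mp ha
          exact Or.inr ⟨rfl, Or.inl (by show (1 : ℕ) < 2; omega)⟩
    · refine List.Pairwise.imp ?_ List.pairwise_lt_range
      intro i j hij x hx y hy
      have h1 : ∀ (i : ℕ) (x : ℕ × ℕ × ℕ), x ∈ (i, 0, 0) ::
          ((List.range s).map fun m => (i, 1, m)) ++ [(i, 2, 0)] → x.1 = i := by
        intro i x hx
        rcases List.mem_append.mp hx with h | h
        · rcases List.mem_cons.mp h with h | h
          · rw [h]
          · obtain ⟨m, _, rfl⟩ := List.mem_map.mp h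
            rfl
        · rw [List.mem_singleton.mp h]
      refine Or.inl ?_
      rw [h1 i x hx, h1 j y hy]
      exact hij
  · intro a ha
    obtain ⟨_, h | ⟨m, _, h⟩ | h⟩ := (mem_box n s a).mp ha
    · rw [h]
      exact ⟨by show 0 ≤ 2; omega, fun _ => rfl⟩
    · rw [h]
      exact ⟨by show 1 ≤ 2; omega, fun h' => absurd rfl h'⟩
    · rw [h]
      exact ⟨le_refl _, fun _ => rfl⟩
  · intro a ha
    left
    rw [mem_box] at ha ⊢
    exact ⟨ha.1, Or.inl rfl⟩

/-- Removing a row from a program. -/
theorem prg_remove {σ1 σ2 : List (ℕ × ℕ × ℕ)} {i m : ℕ}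
    (h : Prg ∅ (σ1 ++ (i, 1, m) :: σ2)) : Prg ∅ (σ1 ++ σ2) := by
  have hsub : ∀ a ∈ σ1 ++ σ2, a ∈ σ1 ++ (i, 1, m) :: σ2 := by
    intro a ha
    rcases List.mem_append.mp ha with h' | h'
    · exact List.mem_append_left _ h'
    · exact List.mem_append_right _ (List.mem_cons_of_mem _ h')
  refine ⟨?_, fun a ha => h.val a (hsub a ha), fun a _ b hb => absurd hb (Set.notMem_empty b), ?_⟩
  · refine h.ord.sublist ?_
    exact List.Sublist.append (List.Sublist.refl _) (List.sublist_cons_self _ _)
  · intro a ha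
    left
    rcases h.sta a (hsub a ha) with h' | h'
    · rcases List.mem_append.mp h' with h'' | h''
      · exact List.mem_append_left _ h''
      · rcases List.mem_cons.mp h'' with h3 | h3
        · have h4 : (0 : ℕ) = 1 := (Prod.ext_iff.mp (Prod.ext_iff.mp h3).2).1
          exact absurd h4 (by decide)
        · exact List.mem_append_right _ h3
    · exact absurd h' (Set.notMem_empty _)

/-- The start of a chunk comes before its rows. -/
theorem prg_start {σ1 σ2 : List (ℕ × ℕ × ℕ)} {i m : ℕ}
    (h : Prg ∅ (σ1 ++ (i, 1, m) :: σ2)) : ∃ it ∈ σ1, it.1 = i ∧ it.2.1 = 0 := by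
  have h1 : (i, 1, m) ∈ σ1 ++ (i, 1, m) :: σ2 :=
    List.mem_append_right _ List.mem_cons_self
  rcases h.sta _ h1 with h' | h'
  · rcases List.mem_append.mp h' with h'' | h''
    · exact ⟨_, h'', rfl, rfl⟩
    · rcases List.mem_cons.mp h'' with h3 | h3
      · have h4 : (0 : ℕ) = 1 := (Prod.ext_iff.mp (Prod.ext_iff.mp h3).2).1
        exact absurd h4 (by decide)
      · have h4 := (List.pairwise_cons.mp (List.pairwise_append.mp h.ord).2.1).1 _ h3
        rcases h4 with h5 | ⟨_, h5 | ⟨h5, _⟩⟩
        · exact absurd h5 (lt_irrefl _)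
        · have h6 : (1 : ℕ) < 0 := h5
          omega
        · have h6 : (1 : ℕ) = 0 := h5
          omega
  · exact absurd h' (Set.notMem_empty _)

/-- Each row occurs once. -/
theorem prg_once {σ1 σ2 : List (ℕ × ℕ × ℕ)} {i m : ℕ}
    (h : Prg ∅ (σ1 ++ (i, 1, m) :: σ2)) :
    ∀ it ∈ σ2, ¬ (it.1 = i ∧ it.2.1 = 1 ∧ it.2.2 = m) := by
  rintro ⟨a, b, c⟩ hit ⟨h1, h2, h3⟩
  have h1' : a = i := h1
  have h2' : b = 1 := h2
  have h3' : c = m := h3
  subst h1'
  subst h2'
  subst h3'
  have h4 := (List.pairwise_cons.mp (List.pairwise_append.mp h.ord).2.1).1 _ hit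
  rcases h4 with h5 | ⟨_, h5 | ⟨_, h5⟩⟩
  · exact absurd h5 (lt_irrefl _)
  · exact absurd h5 (lt_irrefl _)
  · exact absurd h5 (lt_irrefl _)

theorem bnd_mem {kx k : ℕ} {l : List (Idx kx k)} {p : Idx kx k} (hp : p ∈ l) :
    p.1 < bnd l ∧ ∀ q, p.2 = .inr q → q.1 < bnd l := by
  have h1 : p.1 + 1 + Sum.elim (fun _ => 0) (fun q : ℕ × Fin k => q.1 + 1) p.2 ≤ bnd l :=
    List.single_le_sum (fun _ _ => Nat.zero_le _) _ (List.mem_map.mpr ⟨p, hp, rfl⟩)
  constructor
  · omega
  · intro q hq
    rw [hq] at h1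
    have h2 : p.1 + 1 + (q.1 + 1) ≤ bnd l := h1
    omega

theorem itp_box {kc ku k : ℕ} (p : Idx (kc + ku) k) (n s : ℕ) (h1 : p.1 < n)
    (h2 : ∀ q, p.2 = .inr q → q.1 < s) : itp p ∈ box n s := by
  rw [mem_box]
  refine ⟨h1, ?_⟩
  obtain ⟨p1, b | q⟩ := p
  · by_cases hb : b.val < kc
    · exact Or.inl (if_pos hb)
    · exact Or.inr (Or.inr (if_neg hb))
  · exact Or.inr (Or.inl ⟨q.1, h2 q rfl, rfl⟩)

/-- The claim for the box. -/
theorem claim_box {C : Type} {kc ku k : ℕ} {M : List ℕ → C} (h2 : T_TDV) (D : Dat kc ku k)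
    (hM : FinL M) (a : List (Fin k)) (τ : List (ℕ ⊕ Fin a.length) → C)
    (hτ : ∀ᶠ j in (D.UU : Filter ℕ), Tame M (re (D.V j) a.get) ∧ typ M (re (D.V j) a.get) = τ)
    (l : List (Idx (kc + ku) k)) (i m : ℕ) (hmiss : Miss i m l) (w : List ℕ) :
    ∃ σ, Prg ∅ σ ∧ (∀ p ∈ l, itp p ∈ σ) ∧
      ∀ᶠ s in (run D σ st0 : Filter (Sta kc ku k)),
        τ (wd D.z (l.map s.pt) a.length w) = TD M D (l ++ prt i m a) w := by
  let n := bnd (l ++ prt i m a) + i + m + 1
  have hmem : (i, 1, m) ∈ box n n := by
    rw [mem_box]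
    exact ⟨by show i < bnd (l ++ prt i m a) + i + m + 1; omega, Or.inr (Or.inl ⟨m, by
      show m < bnd (l ++ prt i m a) + i + m + 1; omega, rfl⟩)⟩
  have hall : ∀ p ∈ l ++ prt i m a, itp p ∈ box n n := by
    intro p hp
    have h3 := bnd_mem hp
    refine itp_box p n n ?_ ?_
    · show p.1 < bnd (l ++ prt i m a) + i + m + 1
      omega
    · intro q hq
      have h4 := h3.2 q hq
      show q.1 < bnd (l ++ prt i m a) + i + m + 1
      omega
  obtain ⟨σ1, σ2, hσ⟩ := List.append_of_mem hmem
  have hprg := prg_box n n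
  have hv := h2 C kc ku k M D hM (l ++ prt i m a) (box n n) hprg hall st0 w
  rw [hσ] at hprg hv hall
  refine ⟨σ1 ++ σ2, prg_remove hprg, ?_, ?_⟩
  · intro p hp
    rcases List.mem_append.mp (hall p (List.mem_append_left _ hp)) with h3 | h3
    · exact List.mem_append_left _ h3
    · rcases List.mem_cons.mp h3 with h4 | h4
      · exfalso
        obtain ⟨p1, b | q⟩ := p
        · have h5 : (if b.val < kc then ((0 : ℕ), (0 : ℕ)) else (2, 0)) = (1, m) :=
            (Prod.ext_iff.mp h4).2
          by_cases hb : b.val < kc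
          · rw [if_pos hb] at h5
            have h6 : (0 : ℕ) = 1 := (Prod.ext_iff.mp h5).1
            omega
          · rw [if_neg hb] at h5
            have h6 : (2 : ℕ) = 1 := (Prod.ext_iff.mp h5).1
            omega
        · have h5 : ((1 : ℕ), q.1) = (1, m) := (Prod.ext_iff.mp h4).2
          have h6 : q.1 = m := (Prod.ext_iff.mp h5).2
          have h7 : p1 = i := (Prod.ext_iff.mp h4).1
          apply hmiss q.2
          have e1 : ((i, .inr (m, q.2)) : Idx (kc + ku) k) = (p1, .inr q) := by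
            rw [← h6, ← h7]
          rw [e1]
          exact hp
      · exact List.mem_append_right _ h4
  · exact claim D hM a τ hτ l i m hmiss σ1 σ2 (prg_start hprg) (prg_once hprg) st0 w _ hv

/-- **Row T3D.** -/
theorem pf_T3D (h1 : T_DIS) (h2 : T_TDV) (_h3 : T_TDP) : T_T3D := by
  intro C kc ku k M D hM hD hP l i m i' m' a ha hak hm hm'
  obtain ⟨τ, hτ⟩ := hP a ha hak
  funext w
  obtain ⟨σ, hσ, hσl, hσv⟩ := claim_box h2 D hM a τ hτ l i m hm w
  obtain ⟨σ', hσ', hσl', hσv'⟩ := claim_box h2 D hM a τ hτ l i' m' hm' w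
  have h4 := (h1 kc ku k D ∅ st0 st0 l id σ σ'
    ⟨fun _ _ => rfl, fun _ _ _ _ => Iff.rfl, fun p _ q _ _ u u' v v' hu hv hu' hv' => by
      have e1 : (Sum.inr u : Fin (kc + ku) ⊕ ℕ × Fin k) = Sum.inr u' := hu.symm.trans hu'
      have e2 : (Sum.inr v : Fin (kc + ku) ⊕ ℕ × Fin k) = Sum.inr v' := hv.symm.trans hv'
      rw [Sum.inr.inj e1, Sum.inr.inj e2]⟩
    hσ hσ' (fun p _ hp => absurd hp (Set.notMem_empty _))
    (fun c hc => absurd hc (Set.notMem_empty _))
    (fun p hp _ => ⟨hσl p hp, hσl' p hp⟩) (fun p _ hp => absurd hp (Set.notMem_empty _))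
    (fun p _ _ => Set.notMem_empty _)
    (fun L => τ (wd D.z L a.length w) = TD M D (l ++ prt i m a) w)).1 hσv
  rw [List.map_id] at h4
  obtain ⟨s, hs1, hs2⟩ := (h4.and hσv').exists
  rw [← hs1, ← hs2]

end main

end Pool.Agent.H91.FKI
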